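import Pool.Agent.Lib.H88D.NonInt

/-!
# H88D: the data for a group with a central element in the derived subgroup
-/

set_option autoImplicit false

namespace Pool.H88D

open Pool.Helper71.Integ

theorem zmod_div {q M : ℕ} (hq : 0 < q) [NeZero M] (h : q * q ∣ M) (u : ZMod M) (hu : q • u = 0) :
    ∃ y : ZMod M, u = q • y := by
  have h1 : ((q * u.val : ℕ) : ZMod M) = 0 := by
    rw [Nat.cast_mul, ZMod.natCast_zmod_val, ← nsmul_eq_mul, hu]
  rw [ZMod.natCast_eq_zero_iff] at h1
  obtain ⟨t, ht⟩ := Nat.dvd_of_mul_dvd_mul_left hq (h.trans h1)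
  refine ⟨(t : ZMod M), ?_⟩
  rw [nsmul_eq_mul, ← Nat.cast_mul, ← ht, ZMod.natCast_zmod_val]

theorem zmod_hom {n M s : ℕ} (h : M ∣ n * s) : ∃ f : ZMod n →+ ZMod M, ∀ k : ℕ, f k = ((s * k : ℕ) : ZMod M) := by
  have h1 : (zmultiplesHom (ZMod M) (s : ZMod M)) (n : ℤ) = 0 := by
    rw [zmultiplesHom_apply, natCast_zsmul, nsmul_eq_mul, ← Nat.cast_mul, ZMod.natCast_eq_zero_iff]
    exact h
  refine ⟨ZMod.lift n ⟨zmultiplesHom (ZMod M) (s : ZMod M), h1⟩, fun k => ?_⟩
  have h2 := ZMod.lift_coe n ⟨zmultiplesHom (ZMod M) (s : ZMod M), h1⟩ (k : ℤ)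
  rw [Int.cast_natCast] at h2
  rw [h2]
  change (zmultiplesHom (ZMod M) (s : ZMod M)) (k : ℤ) = _
  rw [zmultiplesHom_apply, natCast_zsmul, nsmul_eq_mul, ← Nat.cast_mul, mul_comm]

theorem zmod_inj {n M : ℕ} (hM : 0 < M) (h : n ∣ M) : ∃ f : ZMod n →+ ZMod M, Function.Injective f := by
  obtain ⟨s, hs⟩ := h
  have hn : 0 < n := Nat.pos_of_ne_zero (by rintro rfl; simp at hs; omega)
  have hs0 : 0 < s := Nat.pos_of_ne_zero (by rintro rfl; simp at hs; omega)
  obtain ⟨f, hf⟩ := zmod_hom (n := n) (M := M) (s := s) (by rw [hs])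
  refine ⟨f, (injective_iff_map_eq_zero f).2 fun u hu => ?_⟩
  have : NeZero n := ⟨hn.ne'⟩
  have h1 := hf u.val
  rw [ZMod.natCast_zmod_val, hu] at h1
  have h2 := (ZMod.natCast_eq_zero_iff _ _).1 h1.symm
  rw [hs, mul_comm n s] at h2
  have h3 := Nat.dvd_of_mul_dvd_mul_left hs0 h2
  have h4 := (ZMod.natCast_eq_zero_iff u.val n).2 h3
  rwa [ZMod.natCast_zmod_val] at h4

/-- **The character.** If `u ≠ 0` and `p • u = 0` in `ZMod n` there is a homomorphism to `ZMod (p ^ (k + 1))` with values divisible by `p` which does not kill `u`. -/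
theorem zmod_char {n p : ℕ} (hn : 0 < n) (hp : p.Prime) (u : ZMod n) (hu : u ≠ 0) (hpu : p • u = 0) :
    ∃ (q : ℕ) (_ : 0 < q) (_ : p ∣ q) (f : ZMod n →+ ZMod q), (∀ t, ∃ y : ℕ, f t = ((p * y : ℕ) : ZMod q)) ∧
      f u ≠ 0 := by
  have : NeZero n := ⟨hn.ne'⟩
  obtain ⟨k, r, hr, hnr⟩ := Nat.exists_eq_pow_mul_and_not_dvd hn.ne' p hp.ne_one
  obtain ⟨f, hf⟩ := zmod_hom (n := n) (M := p ^ (k + 1)) (s := p) (by
    rw [hnr, pow_succ]
    exact ⟨r, by ring⟩)
  refine ⟨p ^ (k + 1), pow_pos hp.pos _, Dvd.intro_left _ (pow_succ p k).symm, f, fun t => ⟨t.val, ?_⟩, ?_⟩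
  · have h := hf t.val
    rwa [ZMod.natCast_zmod_val] at h
  · intro h0
    have h := hf u.val
    rw [ZMod.natCast_zmod_val, h0] at h
    have h1 := (ZMod.natCast_eq_zero_iff _ _).1 h.symm
    rw [pow_succ, mul_comm (p ^ k)] at h1
    have h2 : p ^ k ∣ u.val := Nat.dvd_of_mul_dvd_mul_left hp.pos h1
    have h3 : ((p * u.val : ℕ) : ZMod n) = 0 := by
      rw [Nat.cast_mul, ZMod.natCast_zmod_val, ← nsmul_eq_mul, hpu]
    have h4 := (ZMod.natCast_eq_zero_iff _ _).1 h3
    have hcop : Nat.Coprime r p := ((Nat.Prime.coprime_iff_not_dvd hp).2 hr).symm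
    have h5 : r ∣ u.val := by
      have h6 : r ∣ p * u.val := (Dvd.intro_left _ hnr.symm).trans h4
      exact hcop.dvd_of_dvd_mul_left h6
    have h7 : p ^ k * r ∣ u.val :=
      Nat.Coprime.mul_dvd_of_dvd_of_dvd (Nat.Coprime.pow_left k hcop.symm) h2 h5
    rw [← hnr] at h7
    have h8 := (ZMod.natCast_eq_zero_iff u.val n).2 h7
    rw [ZMod.natCast_zmod_val] at h8
    exact hu h8

theorem exists_of_dat {G : Type} [Group G] [Finite G] (E : QDat G) [Finite E.A] [NeZero E.M] (h : ¬ IsIntegrable E.HH) :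
    ∃ (H : Type) (_ : Group H), Finite H ∧ Nonempty (commutator H ≃* commutator G) ∧ ¬ IsIntegrable H :=
  ⟨E.HH, inferInstance, inferInstance, E.equiv_comm, h⟩

/-- **The construction.** -/
theorem exists_nonint (G : Type) [Group G] [Finite G] (z : G) (hz : z ∈ Subgroup.center G) (hz' : z ∈ commutator G)
    (hz1 : z ≠ 1) :
    ∃ (H : Type) (_ : Group H), Finite H ∧ Nonempty (commutator H ≃* commutator G) ∧ ¬ IsIntegrable H := by
  classical
  -- an element of prime order
  obtain ⟨p, hp, z0, hz0c, hz0', hz01, hz0p⟩ : ∃ (p : ℕ) (_ : p.Prime) (z0 : G), z0 ∈ Subgroup.center G ∧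
      z0 ∈ commutator G ∧ z0 ≠ 1 ∧ z0 ^ p = 1 := by
    have ho : orderOf z ≠ 1 := by rwa [Ne, orderOf_eq_one_iff]
    have ho0 : orderOf z ≠ 0 := (orderOf_pos z).ne'
    have hp := Nat.minFac_prime ho
    refine ⟨(orderOf z).minFac, hp, z ^ (orderOf z / (orderOf z).minFac), pow_mem hz _, pow_mem hz' _, ?_, ?_⟩
    · intro h
      have h1 := orderOf_pow_orderOf_div ho0 (Nat.minFac_dvd (orderOf z))
      rw [h, orderOf_one] at h1
      exact hp.ne_one h1.symm
    · rw [← pow_mul, Nat.div_mul_cancel (Nat.minFac_dvd _), pow_orderOf_eq_one]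
  -- the centre
  letI : CommGroup (Subgroup.center G) :=
    { (inferInstance : Group (Subgroup.center G)) with
      mul_comm := fun a b => Subtype.ext (Subgroup.mem_center_iff.1 b.2 a) }
  obtain ⟨I, iI, n, hn, ⟨e⟩⟩ := CommGroup.equiv_prod_multiplicative_zmod_of_finite (Subgroup.center G)
  let v : (i : I) → Subgroup.center G → ZMod (n i) := fun i d => Multiplicative.toAdd (e d i)
  have hv : ∀ i d d', v i (d * d') = v i d + v i d' := by
    intro i d d'
    simp only [v, map_mul, Pi.mul_apply, toAdd_mul]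
  have hv1 : ∀ i, v i 1 = 0 := by
    intro i
    simp only [v, map_one, Pi.one_apply, toAdd_one]
  have hvp : ∀ i d (t : ℕ), v i (d ^ t) = t • v i d := by
    intro i d t
    induction t with
    | zero => rw [pow_zero, hv1, zero_smul]
    | succ t ih => rw [pow_succ, hv, ih, add_smul, one_smul]
  have hvinj : ∀ d d', (∀ i, v i d = v i d') → d = d' := by
    intro d d' h
    apply e.injective
    funext i
    exact Multiplicative.toAdd.injective (h i)
  let zz : Subgroup.center G := ⟨z0, hz0c⟩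
  have hzz1 : zz ≠ 1 := fun h => hz01 (congrArg Subtype.val h)
  have hzzp : zz ^ p = 1 := Subtype.ext (by simpa [zz] using hz0p)
  obtain ⟨i0, hi0⟩ : ∃ i, v i zz ≠ 0 := by
    by_contra hcon
    push Not at hcon
    exact hzz1 (hvinj _ _ fun i => by rw [hcon i, hv1])
  have hpi0 : p • v i0 zz = 0 := by rw [← hvp, hzzp, hv1]
  obtain ⟨q, hq0, hpq, χ, hχ, hχz⟩ := zmod_char (by have := hn i0; omega) hp (v i0 zz) hi0 hpi0
  let Mo : ℕ := q * q * ∏ i, n i
  have hMo : 0 < Mo := by
    refine Nat.mul_pos (Nat.mul_pos hq0 hq0) (Finset.prod_pos fun i _ => ?_)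
    have := hn i
    omega
  have : NeZero Mo := ⟨hMo.ne'⟩
  have : NeZero q := ⟨hq0.ne'⟩
  have hι0 : ∀ i, ∃ f : ZMod (n i) →+ ZMod Mo, Function.Injective f := fun i =>
    zmod_inj hMo (Dvd.dvd.mul_left (Finset.dvd_prod_of_mem n (Finset.mem_univ i)) _)
  choose f hf using hι0
  let A : Type := ZMod q × (I → ZMod Mo)
  let ι : Subgroup.center G → A := fun d => (χ (v i0 d), fun i => f i (v i d))
  have hιmul : ∀ d d', ι (d * d') = ι d + ι d' := by
    intro d d'
    refine Prod.ext ?_ ?_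
    · change χ (v i0 (d * d')) = χ (v i0 d) + χ (v i0 d')
      rw [hv, map_add]
    · funext i
      change f i (v i (d * d')) = f i (v i d) + f i (v i d')
      rw [hv, map_add]
  have hι1 : ι 1 = 0 := by
    refine Prod.ext ?_ ?_
    · change χ (v i0 1) = 0
      rw [hv1, map_zero]
    · funext i
      change f i (v i 1) = 0
      rw [hv1, map_zero]
  have hιpow : ∀ d (t : ℕ), ι (d ^ t) = t • ι d := by
    intro d t
    induction t with
    | zero => rw [pow_zero, hι1, zero_smul]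
    | succ t ih => rw [pow_succ, hιmul, ih, add_smul, one_smul]
  have hιinj : Function.Injective ι := by
    intro d d' h
    refine hvinj _ _ fun i => hf i ?_
    exact congrFun (congrArg Prod.snd h) i
  -- the map w
  have hw0 : (zmultiplesHom A (ι zz)) (p : ℤ) = 0 := by
    rw [zmultiplesHom_apply, natCast_zsmul, ← hιpow, hzzp, hι1]
  let w : ZMod p →+ A := ZMod.lift p ⟨zmultiplesHom A (ι zz), hw0⟩
  have hw : ∀ t : ℕ, w (t : ZMod p) = t • ι zz := by
    intro t
    have h2 := ZMod.lift_coe p ⟨zmultiplesHom A (ι zz), hw0⟩ (t : ℤ)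
    rw [Int.cast_natCast] at h2
    rw [show w (t : ZMod p) = _ from h2]
    change (zmultiplesHom A (ι zz)) (t : ℤ) = _
    rw [zmultiplesHom_apply, natCast_zsmul]
  have : NeZero p := ⟨hp.ne_zero⟩
  have hw' : ∀ t : ZMod p, w t = t.val • ι zz := by
    intro t
    rw [← hw, ZMod.natCast_zmod_val]
  -- N
  let N' : ℕ := Nat.card G * Mo
  let N : ℕ := 2 * N'
  have hN' : 0 < N' := Nat.mul_pos Nat.card_pos hMo
  have hN : 0 < N := Nat.mul_pos two_pos hN'
  have hqN' : q ∣ N' := by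
    refine Dvd.dvd.mul_left ?_ _
    exact ⟨q * ∏ i, n i, by simp only [Mo]; ring⟩
  have hpN : p ∣ N := (hpq.trans hqN').mul_left 2
  have hA' : ∀ a : A, N' • a = 0 := by
    intro a
    refine Prod.ext ?_ ?_
    · change N' • a.1 = 0
      rw [nsmul_eq_mul, (ZMod.natCast_eq_zero_iff N' q).2 hqN', zero_mul]
    · funext i
      change N' • a.2 i = 0
      rw [nsmul_eq_mul, (ZMod.natCast_eq_zero_iff N' Mo).2 (Dvd.intro_left _ rfl), zero_mul]
  have hA : ∀ a : A, N • a = 0 := by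
    intro a
    rw [mul_smul, hA', smul_zero]
  have hA2 : ∀ a : A, N.choose 2 • a = 0 := by
    intro a
    have h : N.choose 2 = (N - 1) * N' := by
      rw [Nat.choose_two_right]
      have : N * (N - 1) = 2 * ((N - 1) * N') := by
        simp only [N]
        ring
      rw [this, Nat.mul_div_cancel_left _ two_pos]
    rw [h, mul_smul, hA', smul_zero]
  have hNN : 0 < N * N := Nat.mul_pos hN hN
  have : NeZero (N * N) := ⟨hNN.ne'⟩
  have hpNN : p ∣ N * N := hpN.mul_left N
  -- the action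
  let x' : A →+ ZMod p := (ZMod.castHom hpq (ZMod p)).toAddMonoidHom.comp (AddMonoidHom.fst (ZMod q) (I → ZMod Mo))
  have hx' : ∀ a : A, x' a = ZMod.castHom hpq (ZMod p) a.1 := fun a => rfl
  let c : ZMod (N * N) →+ A →+ A := AddMonoidHom.mk' (fun j =>
    (w.comp ((AddMonoidHom.mulLeft (ZMod.castHom hpNN (ZMod p) j)).comp x'))) (by
      intro j j'
      refine AddMonoidHom.ext fun a => ?_
      change w (ZMod.castHom hpNN (ZMod p) (j + j') * x' a) = w (ZMod.castHom hpNN (ZMod p) j * x' a) +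
        w (ZMod.castHom hpNN (ZMod p) j' * x' a)
      rw [map_add, add_mul, map_add])
  have hc : ∀ j a, c j a = w (ZMod.castHom hpNN (ZMod p) j * x' a) := fun j a => rfl
  have hx'ι : ∀ d, x' (ι d) = 0 := by
    intro d
    obtain ⟨y, hy⟩ := hχ (v i0 d)
    rw [hx']
    change ZMod.castHom hpq (ZMod p) (χ (v i0 d)) = 0
    rw [hy, map_natCast, Nat.cast_mul, ZMod.natCast_self, zero_mul]
  have hcι : ∀ j d, c j (ι d) = 0 := by
    intro j d
    rw [hc, hx'ι, mul_zero, map_zero]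
  have hcc : ∀ j j' a, c j (c j' a) = 0 := by
    intro j j' a
    rw [hc j' a, hw', map_nsmul, hcι, smul_zero]
  let E : QDat G :=
    { A := A
      iA := inferInstance
      M := N * N
      c := c
      hc := hcc
      ι := ι
      ι_mul := hιmul
      ι_inj := hιinj
      ι_c := hcι
      c_ι := by
        intro j a
        refine ⟨zz ^ (ZMod.castHom hpNN (ZMod p) j * x' a).val, ?_, ?_⟩
        · exact pow_mem hz0' _
        · rw [hιpow, ← hw', ← hc] }
  have : Finite E.A := inferInstanceAs (Finite (ZMod q × (I → ZMod Mo)))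
  have : NeZero E.M := inferInstanceAs (NeZero (N * N))
  refine exists_of_dat E ?_
  have hp1 : Fact (1 < p) := ⟨hp.one_lt⟩
  refine E.not_int N q (AddMonoidHom.fst (ZMod q) (I → ZMod Mo)) ((1, 0) : ZMod q × (I → ZMod Mo)) ?_ hA hA2 ?_ ?_ rfl
    ?_ ?_ ?_
  · intro g
    have h1 : N = Nat.card G * (2 * Mo) := by
      simp only [N, N']
      ring
    rw [h1, pow_mul, pow_card_eq_one', one_pow]
  · intro j hj
    exact zmod_div (M := N * N) hN (dvd_refl _) j hj
  · intro j
    rw [smul_smul, nsmul_eq_mul]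
    have : ((N * N : ℕ) : ZMod (N * N)) = 0 := ZMod.natCast_self _
    change ((N * N : ℕ) : ZMod (N * N)) * j = 0
    rw [this, zero_mul]
  · refine Prod.ext ?_ ?_
    · change q • (1 : ZMod q) = 0
      rw [nsmul_eq_mul, ZMod.natCast_self, zero_mul]
    · funext i
      change q • (0 : ZMod Mo) = 0
      exact smul_zero _
  · intro a ha
    have h1 : ∀ i, ∃ y : ZMod Mo, a.2 i = q • y := by
      intro i
      refine zmod_div hq0 ⟨∏ i, n i, rfl⟩ _ ?_
      exact congrFun (congrArg Prod.snd ha) i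
    choose y hy using h1
    refine ⟨a.1.val, ((0, y) : ZMod q × (I → ZMod Mo)), ?_⟩
    refine Prod.ext ?_ ?_
    · change a.1 = a.1.val • (1 : ZMod q) + q • (0 : ZMod q)
      rw [smul_zero, add_zero, nsmul_eq_mul, mul_one, ZMod.natCast_zmod_val]
    · funext i
      change a.2 i = a.1.val • (0 : ZMod Mo) + q • y i
      rw [smul_zero, zero_add, hy]
  · have h1 : E.c 1 ((1, 0) : ZMod q × (I → ZMod Mo)) = ι zz := by
      change c 1 ((1, 0) : ZMod q × (I → ZMod Mo)) = ι zz
      rw [hc, hx', map_one, map_one, one_mul]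
      have h2 := hw 1
      rw [Nat.cast_one, one_smul] at h2
      exact h2
    rw [h1]
    exact hχz

end Pool.H88D
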