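import Pool.Agent.Lib.Helper71.Integ.Basic

/-!
# H88D: a criterion for groups which are not integrable

`PP N`: the elements `s` with `s ^ N = 1` which commute with all `t` with `t ^ N = 1`. Every automorphism preserves this set. If `f` is additive on it, kills the `N`-th powers, takes the value `1` at `a` and all elements of
order dividing `q` of this set are of the form `a ^ i * y ^ q * h ^ N`, then `α ↦ f (α a)` is a homomorphism from the automorphism group to a commutative monoid.
-/

set_option autoImplicit false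

namespace Pool.H88D

open Pool.Helper71.Integ

variable {H : Type} [Group H]

/-- The elements with `s ^ N = 1` which commute with all elements `t` with `t ^ N = 1`. -/
def PP (N : ℕ) (s : H) : Prop := s ^ N = 1 ∧ ∀ t : H, t ^ N = 1 → s * t = t * s

theorem PP.map {N : ℕ} {s : H} (h : PP N s) (α : MulAut H) : PP N (α s) := by
  refine ⟨by rw [← map_pow, h.1, map_one], fun t ht => ?_⟩
  have h1 : (α.symm t) ^ N = 1 := by rw [← map_pow, ht, map_one]
  have h2 := congrArg α (h.2 _ h1)
  rw [map_mul, map_mul, MulEquiv.apply_symm_apply] at h2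
  exact h2

theorem PP.one (N : ℕ) : PP N (1 : H) := ⟨one_pow _, fun t _ => by rw [one_mul, mul_one]⟩

theorem PP.mul {N : ℕ} {s t : H} (hs : PP N s) (ht : PP N t) : PP N (s * t) := by
  refine ⟨?_, fun u hu => ?_⟩
  · have h : Commute s t := hs.2 t ht.1
    rw [h.mul_pow, hs.1, ht.1, one_mul]
  · rw [mul_assoc, ht.2 u hu, ← mul_assoc, hs.2 u hu, mul_assoc]

theorem PP.pow {N : ℕ} {s : H} (hs : PP N s) (n : ℕ) : PP N (s ^ n) := by
  induction n with
  | zero => rw [pow_zero]; exact PP.one N
  | succ n ih => rw [pow_succ]; exact ih.mul hs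

theorem f_one {N q : ℕ} {f : H → ZMod q} (hf : ∀ s t, PP N s → PP N t → f (s * t) = f s + f t) : f 1 = 0 := by
  have h := hf 1 1 (PP.one N) (PP.one N)
  rw [one_mul] at h
  simpa using h

theorem f_pow {N q : ℕ} {f : H → ZMod q} (hf : ∀ s t, PP N s → PP N t → f (s * t) = f s + f t) {s : H} (hs : PP N s)
    (n : ℕ) : f (s ^ n) = n * f s := by
  induction n with
  | zero => rw [pow_zero, f_one hf]; simp
  | succ n ih =>
    rw [pow_succ, hf _ _ (hs.pow n) hs, ih]
    push_cast
    ring

/-- **The criterion.** -/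
theorem not_integrable_of_crit {N q : ℕ} (f : H → ZMod q) (a b : H)
    (hf : ∀ s t, PP N s → PP N t → f (s * t) = f s + f t) (hN : ∀ h : H, PP N (h ^ N) ∧ f (h ^ N) = 0)
    (ha : PP N a) (ha1 : f a = 1) (haq : a ^ q = 1)
    (hd : ∀ s, PP N s → s ^ q = 1 → ∃ (i : ℕ) (y h : H), PP N y ∧ s = a ^ i * y ^ q * h ^ N)
    (hb : f (b * a * b⁻¹) ≠ 1) : ¬ IsIntegrable H := by
  intro hI
  have key : ∀ α : MulAut H, ∀ (i : ℕ) (y h : H), PP N y → f (α (a ^ i * y ^ q * h ^ N)) = i * f (α a) := by
    intro α i y h hy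
    rw [map_mul, map_mul, map_pow, map_pow, map_pow]
    have h1 := hN (α h)
    have h2 : PP N (α a) := ha.map α
    have h3 : PP N (α y) := hy.map α
    rw [hf _ _ ((h2.pow i).mul (h3.pow q)) h1.1, hf _ _ (h2.pow i) (h3.pow q), h1.2, f_pow hf h2, f_pow hf h3]
    simp
  let Θ : MulAut H →* ZMod q :=
    { toFun := fun α => f (α a)
      map_one' := by rw [MulAut.one_apply]; exact ha1
      map_mul' := by
        intro α α'
        rw [MulAut.mul_apply]
        obtain ⟨i, y, h, hy, e⟩ := hd (α' a) (ha.map α') (by rw [← map_pow, haq, map_one])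
        have h1 := key α i y h hy
        have h2 := key 1 i y h hy
        rw [MulAut.one_apply, MulAut.one_apply, ha1, mul_one] at h2
        rw [e, h1, h2, mul_comm] }
  have h1 : Θ (MulAut.conj b) = 1 := hom_comm_eq_one Θ (hI.conj_mem b)
  exact hb h1

end Pool.H88D
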