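import Pool.Agent.Lib.H88D.Crit

/-!
# H88D: the group `EE` and its quotient `HH`

For an additive group `A`, a modulus `M` and a bilinear `c : ZMod M → A → A` with `c ∘ c = 0` the group `EE` is `A × ZMod M` with
`(a, j) (a', j') = (a + a' + c j a', j + j')`.
-/

set_option autoImplicit false

namespace Pool.H88D

/-- The data of the group `EE`. -/
structure Dat where
  /-- the underlying group -/
  A : Type
  /-- its structure -/
  iA : AddCommGroup A
  /-- the modulus -/
  M : ℕ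
  /-- the action minus one -/
  c : ZMod M →+ A →+ A
  /-- the square is zero -/
  hc : ∀ j j' a, c j (c j' a) = 0

attribute [instance] Dat.iA

/-- The group `EE`. -/
@[ext] structure EE (D : Dat) where
  /-- first coordinate -/
  a : D.A
  /-- second coordinate -/
  j : ZMod D.M

variable {D : Dat}

namespace EE

instance : Mul (EE D) := ⟨fun s t => ⟨s.a + t.a + D.c s.j t.a, s.j + t.j⟩⟩

instance : One (EE D) := ⟨⟨0, 0⟩⟩

instance : Inv (EE D) := ⟨fun s => ⟨-s.a + D.c s.j s.a, -s.j⟩⟩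

theorem mul_a (s t : EE D) : (s * t).a = s.a + t.a + D.c s.j t.a := rfl

theorem mul_j (s t : EE D) : (s * t).j = s.j + t.j := rfl

theorem one_a : (1 : EE D).a = 0 := rfl

theorem one_j : (1 : EE D).j = 0 := rfl

theorem inv_a (s : EE D) : s⁻¹.a = -s.a + D.c s.j s.a := rfl

theorem inv_j (s : EE D) : s⁻¹.j = -s.j := rfl

instance : Group (EE D) where
  mul_assoc s t u := by
    ext
    · rw [mul_a, mul_a, mul_a, mul_a, mul_j, map_add, map_add, map_add, AddMonoidHom.add_apply, D.hc]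
      abel
    · rw [mul_j, mul_j, mul_j, mul_j, add_assoc]
  one_mul s := by
    ext
    · rw [mul_a, one_a, one_j, map_zero, AddMonoidHom.zero_apply, zero_add, add_zero]
    · rw [mul_j, one_j, zero_add]
  mul_one s := by
    ext
    · rw [mul_a, one_a, map_zero, add_zero, add_zero]
    · rw [mul_j, one_j, add_zero]
  inv_mul_cancel s := by
    ext
    · rw [mul_a, inv_a, inv_j, one_a, map_neg, AddMonoidHom.neg_apply]
      abel
    · rw [mul_j, inv_j, one_j, neg_add_cancel]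

theorem mk_mul (a a' : D.A) (j j' : ZMod D.M) : (⟨a, j⟩ : EE D) * ⟨a', j'⟩ = ⟨a + a' + D.c j a', j + j'⟩ := rfl

theorem one_def : (1 : EE D) = ⟨0, 0⟩ := rfl

theorem mk_pow (a : D.A) (j : ZMod D.M) (n : ℕ) :
    (⟨a, j⟩ : EE D) ^ n = ⟨n • a + n.choose 2 • D.c j a, n • j⟩ := by
  induction n with
  | zero => rw [pow_zero, one_def]; simp
  | succ n ih =>
    rw [pow_succ, ih, mk_mul]
    ext
    · change n • a + n.choose 2 • D.c j a + a + D.c (n • j) a = (n + 1) • a + (n + 1).choose 2 • D.c j a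
      rw [Nat.choose_succ_succ' n 1, Nat.choose_one_right, map_nsmul, AddMonoidHom.nsmul_apply, add_smul, add_smul,
        one_smul]
      abel
    · change n • j + j = (n + 1) • j
      rw [add_smul, one_smul]

instance [Finite D.A] [NeZero D.M] : Finite (EE D) := by
  have h : Function.Injective (fun s : EE D => (s.a, s.j)) := by
    intro s t h
    have h1 := congrArg Prod.fst h
    have h2 := congrArg Prod.snd h
    ext
    · exact h1
    · exact h2
  exact Finite.of_injective _ h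

end EE

variable {G : Type} [Group G]

/-- The data of the quotient. -/
structure QDat (G : Type) [Group G] extends Dat where
  /-- embedding of the centre -/
  ι : Subgroup.center G → A
  ι_mul : ∀ d d', ι (d * d') = ι d + ι d'
  ι_inj : Function.Injective ι
  ι_c : ∀ j d, c j (ι d) = 0
  c_ι : ∀ j a, ∃ d : Subgroup.center G, (d : G) ∈ commutator G ∧ ι d = c j a

namespace QDat

variable (E : QDat G)

theorem ι_one : E.ι 1 = 0 := by
  have h := E.ι_mul 1 1
  rw [mul_one] at h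
  have h2 : E.ι 1 + E.ι 1 = E.ι 1 + 0 := by rw [add_zero]; exact h.symm
  exact add_left_cancel h2

theorem ι_inv (d : Subgroup.center G) : E.ι d⁻¹ = -E.ι d := by
  have h := E.ι_mul d⁻¹ d
  rw [inv_mul_cancel, E.ι_one] at h
  exact eq_neg_of_add_eq_zero_left h.symm

theorem ι_zero {d : Subgroup.center G} (h : E.ι d = 0) : d = 1 := by
  apply E.ι_inj
  rw [h, E.ι_one]

/-- The subgroup which is divided out. -/
def R : Subgroup (G × EE E.toDat) where
  carrier := {s | ∃ d : Subgroup.center G, s = ((d : G), ⟨-E.ι d, 0⟩)}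
  one_mem' := ⟨1, by rw [E.ι_one, neg_zero]; rfl⟩
  mul_mem' := by
    rintro s t ⟨d, rfl⟩ ⟨d', rfl⟩
    refine ⟨d * d', ?_⟩
    rw [Prod.mk_mul_mk, EE.mk_mul, E.ι_mul, map_neg, E.ι_c]
    simp only [Subgroup.coe_mul, neg_zero, add_zero, neg_add_rev]
    rw [add_comm (-E.ι d)]
  inv_mem' := by
    rintro s ⟨d, rfl⟩
    refine ⟨d⁻¹, ?_⟩
    rw [Prod.inv_mk]
    refine Prod.ext (by simp) ?_
    ext
    · rw [EE.inv_a, E.ι_inv, map_neg, E.ι_c]
      simp
    · rw [EE.inv_j]
      simp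

theorem mem_R {s : G × EE E.toDat} : s ∈ E.R ↔ ∃ d : Subgroup.center G, s = ((d : G), ⟨-E.ι d, 0⟩) := Iff.rfl

instance : E.R.Normal := by
  constructor
  rintro s ⟨d, rfl⟩ ⟨g, a, j⟩
  refine ⟨d, ?_⟩
  rw [mul_inv_eq_iff_eq_mul, Prod.mk_mul_mk, Prod.mk_mul_mk, EE.mk_mul, EE.mk_mul, map_neg, E.ι_c, map_zero]
  refine Prod.ext ?_ ?_
  · exact (Subgroup.mem_center_iff.1 d.2 g)
  · ext
    · change a + -E.ι d + -0 = -E.ι d + a + 0
      rw [neg_zero, add_comm a]
    · change j + 0 = 0 + j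
      rw [add_comm]

/-- The group. -/
abbrev HH : Type := (G × EE E.toDat) ⧸ E.R

/-- Its elements. -/
def el (g : G) (a : E.A) (j : ZMod E.M) : E.HH := QuotientGroup.mk (g, (⟨a, j⟩ : EE E.toDat))

theorem el_mul (g g' : G) (a a' : E.A) (j j' : ZMod E.M) :
    E.el g a j * E.el g' a' j' = E.el (g * g') (a + a' + E.c j a') (j + j') := rfl

theorem el_one : E.el 1 0 0 = 1 := rfl

theorem exists_el (h : E.HH) : ∃ g a j, h = E.el g a j := by
  obtain ⟨⟨g, a, j⟩, rfl⟩ := QuotientGroup.mk_surjective h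
  exact ⟨g, a, j, rfl⟩

theorem el_eq {g g' : G} {a a' : E.A} {j j' : ZMod E.M} :
    E.el g a j = E.el g' a' j' ↔ ∃ d : Subgroup.center G, g' = g * d ∧ a' = a - E.ι d ∧ j' = j := by
  unfold el
  rw [QuotientGroup.eq, mem_R]
  constructor
  · rintro ⟨d, hd⟩
    rw [inv_mul_eq_iff_eq_mul, Prod.mk_mul_mk, EE.mk_mul, map_neg, E.ι_c] at hd
    rw [Prod.mk.injEq, EE.mk.injEq] at hd
    refine ⟨d, hd.1, ?_, ?_⟩
    · rw [hd.2.1]; simp [sub_eq_add_neg]
    · rw [hd.2.2]; simp
  · rintro ⟨d, h1, h2, h3⟩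
    refine ⟨d, ?_⟩
    rw [inv_mul_eq_iff_eq_mul, Prod.mk_mul_mk, EE.mk_mul, map_neg, E.ι_c]
    rw [Prod.mk.injEq, EE.mk.injEq]
    refine ⟨h1, ?_, ?_⟩
    · rw [h2]; simp [sub_eq_add_neg]
    · rw [h3]; simp

theorem el_pow (g : G) (a : E.A) (j : ZMod E.M) (n : ℕ) :
    E.el g a j ^ n = E.el (g ^ n) (n • a + n.choose 2 • E.c j a) (n • j) := by
  unfold el
  rw [← QuotientGroup.mk_pow, Prod.pow_mk, EE.mk_pow]

theorem el_inj {a a' : E.A} {j j' : ZMod E.M} (h : E.el 1 a j = E.el 1 a' j') : a = a' ∧ j = j' := by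
  obtain ⟨d, h1, h2, h3⟩ := (E.el_eq).1 h
  rw [one_mul] at h1
  have h4 : d = 1 := Subtype.ext h1.symm
  rw [h4, E.ι_one, sub_zero] at h2
  exact ⟨h2.symm, h3.symm⟩

/-- The embedding of `G`. -/
def φ : G →* E.HH where
  toFun g := E.el g 0 0
  map_one' := E.el_one
  map_mul' g g' := by
    rw [el_mul, map_zero, add_zero, add_zero, add_zero]

theorem φ_apply (g : G) : E.φ g = E.el g 0 0 := rfl

theorem φ_inj : Function.Injective E.φ := by
  intro g g' h
  rw [φ_apply, φ_apply, el_eq] at h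
  obtain ⟨d, h1, h2, -⟩ := h
  have h3 : E.ι d = 0 := by
    have h4 : (0 : E.A) - E.ι d = 0 := h2.symm
    rwa [zero_sub, neg_eq_zero] at h4
  rw [h1, E.ι_zero h3]
  simp

theorem commutator_HH : commutator E.HH = (commutator G).map E.φ := by
  apply le_antisymm
  · rw [commutator_def, Subgroup.commutator_le]
    intro h _ h' _
    obtain ⟨g, a, j, rfl⟩ := E.exists_el h
    obtain ⟨g', a', j', rfl⟩ := E.exists_el h'
    obtain ⟨d, hd, e⟩ := E.c_ι j a'
    obtain ⟨d', hd', e'⟩ := E.c_ι j' a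
    have hc1 : (d : G) * (g' * g) = (g' * g) * d := (Subgroup.mem_center_iff.1 d.2 _).symm
    have hc2 : (d' : G)⁻¹ * (g' * g) = (g' * g) * (d' : G)⁻¹ :=
      (Subgroup.mem_center_iff.1 (inv_mem d'.2) _).symm
    have hcm : g * g' * g⁻¹ * g'⁻¹ ∈ commutator G := by
      rw [← commutatorElement_def]
      exact Subgroup.commutator_mem_commutator (Subgroup.mem_top _) (Subgroup.mem_top _)
    refine ⟨(g * g' * g⁻¹ * g'⁻¹) * (d * (d' : G)⁻¹), mul_mem hcm (mul_mem hd (inv_mem hd')), ?_⟩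
    rw [commutatorElement_def, eq_mul_inv_iff_mul_eq, eq_mul_inv_iff_mul_eq, mul_assoc, φ_apply, el_mul, el_mul,
      el_mul, el_eq]
    refine ⟨d⁻¹ * d', ?_, ?_, ?_⟩
    · have h1 : g * g' * g⁻¹ * g'⁻¹ * (↑d * (↑d')⁻¹) * (g' * g) = g * g' * (↑d * (↑d')⁻¹) := by
        rw [mul_assoc (g * g' * g⁻¹ * g'⁻¹), mul_assoc (d : G), hc2, ← mul_assoc (d : G), hc1]
        group
      rw [h1]
      simp only [Subgroup.coe_mul, Subgroup.coe_inv]
      rw [show (d : G)⁻¹ * (d' : G) = (d' : G) * (d : G)⁻¹ from (Subgroup.mem_center_iff.1 (inv_mem d.2) _).symm]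
      group
    · rw [E.ι_mul, E.ι_inv, e, e', map_zero, AddMonoidHom.zero_apply]
      abel
    · rw [zero_add, add_comm]
  · rw [commutator_def, Subgroup.map_commutator, commutator_def]
    exact Subgroup.commutator_mono le_top le_top

theorem equiv_comm : Nonempty (commutator E.HH ≃* commutator G) := by
  rw [E.commutator_HH]
  exact ⟨((commutator G).equivMapOfInjective E.φ E.φ_inj).symm⟩

end QDat

end Pool.H88D
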