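import Mathlib

/-!
# H88D: a finite integrable group has a finite integral
-/

set_option autoImplicit false

namespace Pool.H88D

/-- A power which kills all elements of finite order of a finitely generated commutative group. -/
theorem torsion_pow (Z : Type) [CommGroup Z] [Group.FG Z] :
    ∃ k : ℕ, k ≠ 0 ∧ ∀ z : Z, (∃ s : ℕ, s ≠ 0 ∧ z ^ s = 1) → z ^ k = 1 := by
  obtain ⟨ι, j, iι, ij, p, hp, e, ⟨f⟩⟩ := CommGroup.equiv_free_prod_prod_multiplicative_zmod Z
  refine ⟨∏ i, p i ^ e i, ?_, ?_⟩
  · exact (Finset.prod_pos fun i _ => pow_pos (hp i).pos _).ne'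
  · rintro z ⟨s, hs, hz⟩
    apply f.injective
    rw [map_pow, map_one]
    have h1 : f z ^ s = 1 := by rw [← map_pow, hz, map_one]
    refine Prod.ext ?_ ?_
    · have h2 : (f z).1 ^ s = 1 := congrArg Prod.fst h1
      have h3 : (f z).1 = 1 := by
        funext i
        have h4 : s • Multiplicative.toAdd ((f z).1 i) = 0 := congrFun h2 i
        rw [nsmul_eq_mul] at h4
        have h5 : Multiplicative.toAdd ((f z).1 i) = 0 := by
          rcases mul_eq_zero.1 h4 with h | h
          · exact absurd (by exact_mod_cast h) hs
          · exact h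
        exact h5
      rw [Prod.pow_fst, h3, one_pow]
      rfl
    · rw [Prod.pow_snd]
      funext i
      rw [Pi.pow_apply]
      have h6 : ((∏ i, p i ^ e i : ℕ)) • Multiplicative.toAdd ((f z).2 i) = 0 := by
        rw [nsmul_eq_mul, (ZMod.natCast_eq_zero_iff _ _).2 (Finset.dvd_prod_of_mem _ (Finset.mem_univ i)), zero_mul]
      exact h6

/-- The derived subgroups of isomorphic groups. -/
theorem comm_equiv {A B : Type} [Group A] [Group B] (e : A ≃* B) : Nonempty (commutator A ≃* commutator B) := by
  have h : (commutator A).map e.toMonoidHom = commutator B := by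
    rw [commutator_def, Subgroup.map_commutator, commutator_def, Subgroup.map_top_of_surjective _ e.surjective]
  exact ⟨((commutator A).equivMapOfInjective e.toMonoidHom e.injective).trans (MulEquiv.subgroupCongr h)⟩

/-- The finitely generated case. -/
theorem exists_finite_of_fg (L : Type) [Group L] [Group.FG L] [Finite (commutator L)] :
    ∃ (M : Type) (_ : Group M), Finite M ∧ Nonempty (commutator M ≃* commutator L) := by
  have hcs : Finite (commutatorSet L) := by
    have h : commutatorSet L ⊆ (commutator L : Set L) := by
      rw [commutator_eq_closure]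
      exact Subgroup.subset_closure
    exact Set.Finite.subset (Set.toFinite (commutator L : Set L)) h
  have hfi : (Subgroup.center L).FiniteIndex := inferInstance
  have hfg : Group.FG (Subgroup.center L) := inferInstance
  let iC : CommGroup (Subgroup.center L) :=
    { (inferInstance : Group (Subgroup.center L)) with
      mul_comm := fun a b => Subtype.ext (Subgroup.mem_center_iff.1 b.2 a) }
  obtain ⟨k, hk, hkt⟩ := @torsion_pow (Subgroup.center L) iC hfg
  let R : Subgroup (Subgroup.center L) := (powMonoidHom (α := Subgroup.center L) k).range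
  have hR : R.FiniteIndex := Subgroup.finiteIndex_range_powMonoidHom_of_fg (Subgroup.center L) hk
  let W : Subgroup L := R.map (Subgroup.center L).subtype
  have hW : ∀ w ∈ W, ∃ z : Subgroup.center L, (z : L) ^ k = w := by
    rintro w ⟨r, ⟨z, rfl⟩, rfl⟩
    exact ⟨z, rfl⟩
  have hWn : W.Normal := by
    constructor
    intro w hw g
    obtain ⟨z, rfl⟩ := hW w hw
    have h1 : g * (z : L) ^ k = (z : L) ^ k * g := Subgroup.mem_center_iff.1 (pow_mem z.2 k) g
    rw [h1, mul_inv_cancel_right]
    exact hw
  have hWi : W.FiniteIndex := by
    constructor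
    rw [Subgroup.index_map_subtype]
    exact mul_ne_zero hR.1 hfi.1
  have hinj : ∀ w ∈ W, w ∈ commutator L → w = 1 := by
    intro w hw hc
    obtain ⟨z, rfl⟩ := hW w hw
    have h1 : ((z : L) ^ k) ^ (Nat.card (commutator L)) = 1 := by
      have h2 : (⟨(z : L) ^ k, hc⟩ : commutator L) ^ Nat.card (commutator L) = 1 := pow_card_eq_one'
      exact congrArg Subtype.val h2
    have h3 := hkt z ⟨k * Nat.card (commutator L), mul_ne_zero hk Nat.card_pos.ne', by
      apply Subtype.ext
      rw [pow_mul]
      exact h1⟩
    exact congrArg Subtype.val h3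
  refine ⟨L ⧸ W, inferInstance, inferInstance, ?_⟩
  have h : (commutator L).map (QuotientGroup.mk' W) = commutator (L ⧸ W) := by
    rw [commutator_def, Subgroup.map_commutator, commutator_def,
      Subgroup.map_top_of_surjective _ (QuotientGroup.mk'_surjective W)]
  rw [← h]
  let f : commutator L →* (commutator L).map (QuotientGroup.mk' W) :=
    (QuotientGroup.mk' W).subgroupMap (commutator L)
  refine ⟨(MulEquiv.ofBijective f ⟨?_, (QuotientGroup.mk' W).subgroupMap_surjective _⟩).symm⟩
  rw [injective_iff_map_eq_one]
  intro a ha
  have h4 : QuotientGroup.mk' W (a : L) = 1 := congrArg Subtype.val ha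
  rw [QuotientGroup.mk'_apply, QuotientGroup.eq_one_iff] at h4
  exact Subtype.ext (hinj a h4 a.2)

/-- **A finite derived subgroup is the derived subgroup of a finite group.** -/
theorem exists_finite (L : Type) [Group L] [Finite (commutator L)] :
    ∃ (M : Type) (_ : Group M), Finite M ∧ Nonempty (commutator M ≃* commutator L) := by
  have hcs : Finite (commutatorSet L) := by
    have h : commutatorSet L ⊆ (commutator L : Set L) := by
      rw [commutator_eq_closure]
      exact Subgroup.subset_closure
    exact Set.Finite.subset (Set.toFinite (commutator L : Set L)) h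
  let L0 := closureCommutatorRepresentatives L
  have h1 : (commutator L0).map L0.subtype = commutator L := by
    rw [commutator_eq_closure L, ← image_commutatorSet_closureCommutatorRepresentatives, ← MonoidHom.map_closure,
      ← commutator_eq_closure]
  have e : commutator L0 ≃* commutator L :=
    ((commutator L0).equivMapOfInjective L0.subtype L0.subtype_injective).trans (MulEquiv.subgroupCongr h1)
  have hf : Finite (commutator L0) := Finite.of_equiv _ e.symm.toEquiv
  have hfg : Group.FG L0 := closureCommutatorRepresentatives_fg
  obtain ⟨M, iM, hM, ⟨f⟩⟩ := exists_finite_of_fg L0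
  exact ⟨M, iM, hM, ⟨f.trans e⟩⟩

end Pool.H88D
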