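import Pool.Agent.Lib.H88D.Build
import Pool.Agent.Lib.H88D.FinInt

/-!
# H88D: property (D) for groups with a central element in the derived subgroup
-/

set_option autoImplicit false

namespace Pool.H88D

open Pool.Helper71.Integ

theorem exists_nonint' (G : Type) [Group G] [Finite G] (h : Subgroup.center G ⊓ commutator G ≠ ⊥) :
    ∃ (H : Type) (_ : Group H), Finite H ∧ Nonempty (commutator H ≃* commutator G) ∧ ¬ IsIntegrable H := by
  obtain ⟨z, hz1⟩ := Subgroup.ne_bot_iff_exists_ne_one.1 h
  exact exists_nonint G z z.2.1 z.2.2 (fun e => hz1 (Subtype.ext e))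

/-- A finite group with derived subgroup isomorphic to `G'` is not integrable if `G'` is not the second derived subgroup of a finite group. -/
theorem not_integrable_of_no {G : Type} [Group G]
    (hno : ¬ ∃ (L : Type) (_ : Group L), Finite L ∧ Nonempty (commutator (commutator L) ≃* commutator G))
    (H : Type) [Group H] [Finite H] (e : commutator H ≃* commutator G) : ¬ IsIntegrable H := by
  rintro ⟨L, iL, ⟨f⟩⟩
  have hL : Finite (commutator L) := Finite.of_equiv _ f.symm.toEquiv
  obtain ⟨M, iM, hM, ⟨g⟩⟩ := exists_finite L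
  obtain ⟨g'⟩ := comm_equiv (g.trans f)
  exact hno ⟨M, iM, hM, ⟨g'.trans e⟩⟩

theorem propertyD_iff (G : Type) [Group G] [Finite G]
    (h : ∃ (H : Type) (_ : Group H), Finite H ∧ Nonempty (commutator H ≃* commutator G) ∧
      Subgroup.center H ⊓ commutator H ≠ ⊥) :
    PropertyD G ↔
      ¬ ∃ (L : Type) (_ : Group L), Finite L ∧ Nonempty (commutator (commutator L) ≃* commutator G) := by
  constructor
  · rintro hD ⟨L, iL, hL, ⟨e⟩⟩
    obtain ⟨H0, i0, hf0, ⟨e0⟩, hc⟩ := h
    obtain ⟨H1, i1, hf1, ⟨e1⟩, hn⟩ := exists_nonint' H0 hc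
    have h1 := hD H1 ⟨e1.trans e0⟩
    have h2 := hD (commutator L) ⟨e⟩
    exact hn (h1.2 (h2.1 ⟨L, iL, ⟨MulEquiv.refl _⟩⟩))
  · intro hno H iH hf ⟨e⟩
    exact ⟨fun h1 => absurd h1 (not_integrable_of_no hno H e),
      fun h1 => absurd h1 (not_integrable_of_no hno G (MulEquiv.refl _))⟩

theorem center_inf_commutator (G : Type) [Group G] [Group.IsNilpotent G] (hG : ∃ a b : G, a * b ≠ b * a) :
    Subgroup.center G ⊓ commutator G ≠ ⊥ := by
  classical
  have hex : ∃ n, (⊤ : Subgroup G).lowerCentralSeries n = ⊥ := Subgroup.nilpotent_iff_lowerCentralSeries.1 inferInstance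
  have h0 := Nat.find_spec hex
  have hmin := fun m => @Nat.find_min _ _ hex m
  generalize Nat.find hex = n at h0 hmin
  obtain ⟨a, b, hab⟩ := hG
  match n, h0, hmin with
  | 0, h0, _ =>
    rw [Subgroup.lowerCentralSeries_zero] at h0
    have : ∀ x : G, x = 1 := fun x => Subgroup.mem_bot.1 (h0 ▸ Subgroup.mem_top x)
    rw [this a, this b] at hab
    exact absurd rfl hab
  | 1, h0, _ =>
    rw [Subgroup.top_lowerCentralSeries_one] at h0
    have h1 : a * b * a⁻¹ * b⁻¹ ∈ commutator G := by
      rw [← commutatorElement_def]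
      exact Subgroup.commutator_mem_commutator (Subgroup.mem_top _) (Subgroup.mem_top _)
    rw [h0, Subgroup.mem_bot, mul_inv_eq_one, mul_inv_eq_iff_eq_mul] at h1
    exact absurd h1 hab
  | m + 2, h0, hmin =>
    intro h
    refine hmin (m + 1) (by omega) ?_
    rw [eq_bot_iff, ← h]
    refine le_inf ?_ ?_
    · intro z hz
      rw [Subgroup.mem_center_iff]
      intro g
      have h1 : z * g * z⁻¹ * g⁻¹ ∈ (⊤ : Subgroup G).lowerCentralSeries (m + 2) := by
        rw [← commutatorElement_def]
        exact Subgroup.commutator_mem_commutator hz (Subgroup.mem_top _)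
      rw [h0, Subgroup.mem_bot, mul_inv_eq_one, mul_inv_eq_iff_eq_mul] at h1
      exact h1.symm
    · rw [← Subgroup.top_lowerCentralSeries_one]
      exact Subgroup.lowerCentralSeries_antitone _ (by omega)

end Pool.H88D
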