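import Pool.Agent.Lib.H88D.EE

/-!
# H88D: the group `HH` is not integrable
-/

set_option autoImplicit false

namespace Pool.H88D

open Pool.Helper71.Integ

variable {G : Type} [Group G]

namespace QDat

variable (E : QDat G)

/-- The homomorphism of the criterion. -/
noncomputable def ff (N q : ℕ) (x : E.A →+ ZMod q) (s : E.HH) : ZMod q :=
  open Classical in
  if h : ∃ a j, s = E.el 1 a (N • j) then x h.choose else 0

theorem ff_el (N q : ℕ) (x : E.A →+ ZMod q) (a : E.A) (j : ZMod E.M) : E.ff N q x (E.el 1 a (N • j)) = x a := by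
  have h : ∃ a' j', E.el 1 a (N • j) = E.el 1 a' (N • j') := ⟨a, j, rfl⟩
  unfold ff
  rw [dif_pos h]
  obtain ⟨j', hj'⟩ := h.choose_spec
  exact congrArg x (E.el_inj hj').1.symm

/-- **The group is not integrable.** -/
theorem not_int (N q : ℕ) (x : E.A →+ ZMod q) (e1 : E.A)
    (hG : ∀ g : G, g ^ N = 1) (hA : ∀ a : E.A, N • a = 0) (hA2 : ∀ a : E.A, N.choose 2 • a = 0)
    (hJ : ∀ j : ZMod E.M, N • j = 0 → ∃ j' : ZMod E.M, j = N • j') (hJ2 : ∀ j : ZMod E.M, N • (N • j) = 0)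
    (hx1 : x e1 = 1) (he1 : q • e1 = 0)
    (hdec : ∀ a : E.A, q • a = 0 → ∃ (i : ℕ) (y : E.A), a = i • e1 + q • y)
    (hx : x (E.c 1 e1) ≠ 0) : ¬ IsIntegrable E.HH := by
  have hpow : ∀ (g : G) (a : E.A) (j : ZMod E.M), E.el g a j ^ N = E.el 1 0 (N • j) := by
    intro g a j
    rw [el_pow, hG, hA, hA2, add_zero]
  have hcN : ∀ j : ZMod E.M, E.c (N • j) = 0 := by
    intro j
    ext a
    rw [map_nsmul, AddMonoidHom.nsmul_apply, hA]
    rfl
  have hj0 : ∀ (g : G) (a : E.A) (j : ZMod E.M), E.el g a j ^ N = 1 → ∃ j' : ZMod E.M, j = N • j' := by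
    intro g a j h
    rw [hpow, ← el_one] at h
    exact hJ j (E.el_inj h).2
  have hPP : ∀ s : E.HH, PP N s ↔ ∃ a j, s = E.el 1 a (N • j) := by
    intro s
    constructor
    · rintro ⟨h1, h2⟩
      obtain ⟨g, a, j, rfl⟩ := E.exists_el s
      obtain ⟨j', rfl⟩ := hj0 g a j h1
      have hg : ∀ g' : G, g' * g = g * g' := by
        intro g'
        have h3 := h2 (E.el g' 0 0) (by rw [hpow, smul_zero, el_one])
        rw [el_mul, el_mul, map_zero, map_zero, AddMonoidHom.zero_apply, add_zero, add_zero, zero_add, zero_add,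
          add_zero, add_zero, el_eq] at h3
        obtain ⟨d, h4, h5, -⟩ := h3
        have h6 : E.ι d = 0 := by
          have h7 : a + E.ι d = a + 0 := by
            rw [add_zero]
            exact (sub_eq_iff_eq_add.1 h5.symm).symm
          exact add_left_cancel h7
        rw [h4, E.ι_zero h6]
        simp
      have hgc : g ∈ Subgroup.center G := Subgroup.mem_center_iff.2 hg
      refine ⟨a + E.ι ⟨g, hgc⟩, j', ?_⟩
      symm
      rw [el_eq]
      exact ⟨⟨g, hgc⟩, by rw [one_mul], by rw [add_sub_cancel_right], rfl⟩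
    · rintro ⟨a, j, rfl⟩
      refine ⟨?_, fun t ht => ?_⟩
      · rw [hpow, hJ2, el_one]
      · obtain ⟨g', a', j', rfl⟩ := E.exists_el t
        obtain ⟨j'', rfl⟩ := hj0 g' a' j' ht
        rw [el_mul, el_mul, hcN, hcN, one_mul, mul_one, AddMonoidHom.zero_apply, AddMonoidHom.zero_apply, add_zero,
          add_zero, add_comm a, add_comm (N • j)]
  have hc0 : ∀ s t, PP N s → PP N t → E.ff N q x (s * t) = E.ff N q x s + E.ff N q x t := by
    intro s t hs ht
    obtain ⟨a, j, rfl⟩ := (hPP s).1 hs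
    obtain ⟨a', j', rfl⟩ := (hPP t).1 ht
    rw [el_mul, hcN, one_mul, AddMonoidHom.zero_apply, add_zero, ← smul_add, ff_el, ff_el, ff_el, map_add]
  refine not_integrable_of_crit (N := N) (q := q) (E.ff N q x) (E.el 1 e1 0) (E.el 1 0 1) hc0 ?_ ?_ ?_ ?_ ?_ ?_
  · intro h
    obtain ⟨g, a, j, rfl⟩ := E.exists_el h
    rw [hpow]
    exact ⟨(hPP _).2 ⟨0, j, rfl⟩, by rw [ff_el, map_zero]⟩
  · exact (hPP _).2 ⟨e1, 0, by rw [smul_zero]⟩
  · have h := E.ff_el N q x e1 0
    rw [smul_zero] at h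
    rw [h, hx1]
  · rw [el_pow, one_pow, he1, map_zero, AddMonoidHom.zero_apply, smul_zero, smul_zero, add_zero, el_one]
  · intro s hs hq
    obtain ⟨a, j, rfl⟩ := (hPP s).1 hs
    rw [el_pow, hcN, one_pow, AddMonoidHom.zero_apply, smul_zero, add_zero, ← el_one] at hq
    obtain ⟨i, y, hy⟩ := hdec a (E.el_inj hq).1
    refine ⟨i, E.el 1 y 0, E.el 1 0 j, (hPP _).2 ⟨y, 0, by rw [smul_zero]⟩, ?_⟩
    rw [hpow, el_pow, el_pow, el_mul, el_mul]
    simp only [one_pow, map_zero, AddMonoidHom.zero_apply, smul_zero, add_zero, one_mul, zero_add]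
    rw [hy]
  · have h1 : E.el 1 0 1 * E.el 1 e1 0 = E.el 1 (e1 + E.c 1 e1) 0 * E.el 1 0 1 := by
      rw [el_mul, el_mul]
      simp only [map_zero, add_zero, zero_add, one_mul]
    rw [h1, mul_inv_cancel_right]
    have h := E.ff_el N q x (e1 + E.c 1 e1) 0
    rw [smul_zero] at h
    rw [h, map_add, hx1]
    intro h2
    exact hx (by simpa using h2)

end QDat

end Pool.H88D
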